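import Pool.Agent.W680.WH.Stm

/-!
# WHH-WI2: the Wiener lemma for an equivalent norm
-/

set_option autoImplicit false

open scoped ComplexConjugate InnerProductSpace
open ContinuousLinearMap Filter

namespace Pool.Agent.W103.WH

open Pool.Agent.W680.WH

section gen

variable {K : Type} [NormedAddCommGroup K] [InnerProductSpace ℂ K] [CompleteSpace K]

theorem exists_sqrt (P : K →L[ℂ] K) (m : ℝ) (hm : 0 < m) (hP : adjoint P = P)
    (hpos : ∀ f, m * ‖f‖ ^ 2 ≤ (⟪f, P f⟫_ℂ).re) :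
    ∃ S : (K →L[ℂ] K)ˣ, adjoint (S : K →L[ℂ] K) = S ∧ (S : K →L[ℂ] K) * S = P := by
  have h0 : 0 ≤ P := by
    rw [nonneg_iff_isPositive, isPositive_def']
    refine ⟨hP, fun f => ?_⟩
    rw [reApplyInnerSelf_apply, ← inner_re_symm]
    have := hpos f
    have h1 : 0 ≤ m * ‖f‖ ^ 2 := by positivity
    exact h1.trans this
  have hu : IsUnit P := by
    refine isUnit_of_forall_le_norm_inner_map P (c := ⟨m, hm.le⟩) hm (fun f => ?_)
    have h1 := hpos f
    have h2 : (⟪f, P f⟫_ℂ).re ≤ ‖⟪P f, f⟫_ℂ‖ := by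
      rw [← norm_inner_symm]
      exact Complex.re_le_norm _
    calc ‖f‖ ^ 2 * m = m * ‖f‖ ^ 2 := mul_comm _ _
      _ ≤ _ := h1.trans h2
  have h2 : CFC.sqrt P * CFC.sqrt P = P := CFC.sqrt_mul_sqrt_self P h0
  have h3 : IsUnit (CFC.sqrt P) := by
    rw [← isUnit_pow_iff (n := 2) (by norm_num), pow_two, h2]
    exact hu
  obtain ⟨S, hS⟩ := h3
  refine ⟨S, ?_, ?_⟩
  · rw [hS]
    exact (CFC.sqrt_nonneg P).isSelfAdjoint
  · rw [hS]
    exact h2

theorem adj_inv {A : Type*} [Monoid A] [StarMul A] {S Si : A} (_h1 : S * Si = 1)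
    (h2 : Si * S = 1) (hS : star S = S) : star Si = Si := by
  have h3 : S * star Si = 1 := by
    have := congrArg star h2
    rwa [star_mul, hS, star_one] at this
  calc star Si = Si * S * star Si := by rw [h2, one_mul]
    _ = Si := by rw [mul_assoc, h3, mul_one]

/-- the similar operator is unitary -/
theorem conj_unitary {A : Type*} [Monoid A] [StarMul A] {S Si W Wi P : A} (h1 : S * Si = 1)
    (h2 : Si * S = 1) (w1 : W * Wi = 1) (hS : star S = S) (hSS : S * S = P)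
    (hW : star W * P * W = P) :
    star (S * W * Si) * (S * W * Si) = 1 ∧ (S * W * Si) * star (S * W * Si) = 1 := by
  have e : star (S * W * Si) = Si * (star W * S) := by
    rw [star_mul, star_mul, adj_inv h1 h2 hS, hS]
  have h3 : star (S * W * Si) * (S * W * Si) = 1 := by
    rw [e]
    calc Si * (star W * S) * (S * W * Si) = Si * (star W * (S * S) * W) * Si := by
          simp only [mul_assoc]
      _ = Si * (S * S) * Si := by rw [hSS, hW]
      _ = 1 := by rw [← mul_assoc, h2, one_mul, h1]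
  have h4 : (S * W * Si) * (S * Wi * Si) = 1 := by
    calc (S * W * Si) * (S * Wi * Si) = S * W * (Si * S) * Wi * Si := by simp only [mul_assoc]
      _ = S * (W * Wi) * Si := by rw [h2, mul_one]; simp only [mul_assoc]
      _ = 1 := by rw [w1, mul_one, h1]
  refine ⟨h3, ?_⟩
  have h5 : star (S * W * Si) = S * Wi * Si := by
    calc star (S * W * Si) = star (S * W * Si) * ((S * W * Si) * (S * Wi * Si)) := by
          rw [h4, mul_one]
      _ = S * Wi * Si := by rw [← mul_assoc, h3, one_mul]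
  rw [h5, h4]

theorem conj_pow' {A : Type*} [Monoid A] {S Si W : A} (_h1 : S * Si = 1)
    (h2 : Si * S = 1) (j : ℕ) : (S * W * Si) ^ j * S = S * W ^ j := by
  induction j with
  | zero => rw [pow_zero, pow_zero, one_mul, mul_one]
  | succ j ih =>
    calc (S * W * Si) ^ (j + 1) * S = (S * W * Si) * ((S * W * Si) ^ j * S) := by
          rw [pow_succ', mul_assoc]
      _ = S * W * (Si * S) * W ^ j := by rw [ih]; simp only [mul_assoc]
      _ = S * W ^ (j + 1) := by rw [h2, mul_one, mul_assoc, ← pow_succ']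

theorem erg (U : K →L[ℂ] K) (hU : adjoint U * U = 1) (l : ℂ) (hl : ‖l‖ = 1) (v x : K)
    (hv : U v = l • v) (hvx : ⟪v, x⟫_ℂ ≠ 0) :
    ∃ F : K, F ≠ 0 ∧ U F = l • F ∧ Tendsto (fun N : ℕ => ((N : ℂ) + 1)⁻¹ •
        ∑ j ∈ Finset.range (N + 1), (l⁻¹) ^ j • (U ^ j) x) atTop (nhds F) := by
  have hl0 : l ≠ 0 := by
    intro h
    rw [h, norm_zero] at hl
    exact zero_ne_one hl
  have hiso : ∀ f, ‖U f‖ = ‖f‖ := (norm_map_iff_adjoint_comp_self U).2 hU
  set V : K →L[ℂ] K := l⁻¹ • U with hV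
  have hVn : ‖V‖ ≤ 1 := by
    refine opNorm_le_bound _ zero_le_one (fun f => ?_)
    rw [hV, smul_apply, norm_smul, norm_inv, hl, hiso]
    norm_num
  have hT := tendsto_birkhoffAverage_orthogonalProjection V hVn x
  set L := (V.eqLocus (1 : K →L[ℂ] K)) with hL
  have hvL : v ∈ L := by
    rw [hL]
    show V v = (1 : K →L[ℂ] K) v
    rw [hV, smul_apply, hv, smul_smul, inv_mul_cancel₀ hl0, one_smul]
    rfl
  set F : L := L.orthogonalProjectionOnto x with hF
  refine ⟨(F : K), ?_, ?_, ?_⟩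
  · intro h0
    apply hvx
    have h1 := L.inner_orthogonalProjectionOnto_eq_of_mem_left ⟨v, hvL⟩ x
    rw [← h1, ← hF]
    show ⟪v, (F : K)⟫_ℂ = 0
    rw [h0, inner_zero_right]
  · have h1 : V (F : K) = (1 : K →L[ℂ] K) (F : K) := F.2
    rw [hV, smul_apply] at h1
    have h1' : (1 : K →L[ℂ] K) (F : K) = (F : K) := rfl
    rw [h1'] at h1
    calc U (F : K) = l • (l⁻¹ • U (F : K)) := by
          rw [smul_smul, mul_inv_cancel₀ hl0, one_smul]
      _ = l • (F : K) := by rw [h1]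
  · have h2 := hT.comp (tendsto_add_atTop_nat 1)
    refine h2.congr (fun N => ?_)
    show birkhoffAverage ℂ V _root_.id (N + 1) x = _
    unfold birkhoffAverage birkhoffSum
    congr 1
    · push_cast
      rfl
    · refine Finset.sum_congr rfl (fun j _ => ?_)
      show (V^[j]) x = _
      have h3 : ∀ j : ℕ, (V^[j]) x = (V ^ j) x := by
        intro j
        induction j with
        | zero => rfl
        | succ j ih =>
          rw [Function.iterate_succ_apply', ih, pow_succ']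
          rfl
      rw [h3, hV, smul_pow, smul_apply]

end gen

theorem wi2 (hW : S_WIE) : S_WI2 := by
  intro P m W x s η c hm hP hpos hWP hc hlow
  obtain ⟨S', hS, hSS⟩ := exists_sqrt P m hm hP hpos
  obtain ⟨S, hSe⟩ : ∃ S : E →L[ℂ] E, S = (S' : E →L[ℂ] E) := ⟨_, rfl⟩
  obtain ⟨Si, hSie⟩ : ∃ Si : E →L[ℂ] E, Si = ((S'⁻¹ : (E →L[ℂ] E)ˣ) : E →L[ℂ] E) := ⟨_, rfl⟩
  obtain ⟨V, hVe⟩ : ∃ V : E →L[ℂ] E, V = (W : E →L[ℂ] E) := ⟨_, rfl⟩
  obtain ⟨Vi, hVie⟩ : ∃ Vi : E →L[ℂ] E, Vi = ((W⁻¹ : (E →L[ℂ] E)ˣ) : E →L[ℂ] E) := ⟨_, rfl⟩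
  have s1 : S * Si = 1 := by rw [hSe, hSie, Units.mul_inv]
  have s2 : Si * S = 1 := by rw [hSe, hSie, Units.inv_mul]
  have w1 : V * Vi = 1 := by rw [hVe, hVie, Units.mul_inv]
  rw [← hSe] at hS hSS
  rw [← hVe] at hWP hlow ⊢
  clear hSe hSie hVe hVie
  obtain ⟨hU1, hU2⟩ := conj_unitary s1 s2 w1 hS hSS hWP
  have hsi : adjoint Si = Si := adj_inv s1 s2 hS
  have hpow : ∀ (j : ℕ) (y : E), ((S * V * Si) ^ j) (S y) = S ((V ^ j) y) := by
    intro j y
    exact congrArg (fun T : E →L[ℂ] E => T y) (conj_pow' (W := V) s1 s2 j)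
  have hcanc : ∀ y : E, Si (S y) = y := fun y =>
    congrArg (fun T : E →L[ℂ] E => T y) s2
  have hcanc' : ∀ y : E, S (Si y) = y := fun y =>
    congrArg (fun T : E →L[ℂ] E => T y) s1
  obtain ⟨l, v, hl, hv, hvx⟩ := hW E (S * V * Si) (S x) s (fun i => Si (η i)) c hU1 hU2 hc (by
      intro j
      have h1 := hlow j
      have h2 : ∀ i : ℤ, ⟪Si (η i), ((S * V * Si) ^ j) (S x)⟫_ℂ = ⟪η i, (V ^ j) x⟫_ℂ := by
        intro i
        rw [hpow, ← adjoint_inner_right, hsi, hcanc]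
      simp only [h2]
      exact h1)
  obtain ⟨F, hF0, hF1, hF2⟩ := erg _ hU1 l hl v _ hv hvx
  refine ⟨l, Si F, hl, ?_, ?_, ?_⟩
  · intro h0
    apply hF0
    rw [← hcanc' F, h0, map_zero]
  · have h1 := congrArg Si hF1
    rw [map_smul] at h1
    rw [← h1]
    show V (Si F) = Si (S (V (Si F)))
    rw [hcanc]
  · have h1 := (Si.continuous.tendsto F).comp hF2
    refine h1.congr (fun N => ?_)
    show Si _ = _
    rw [map_smul, map_sum]
    congr 1
    refine Finset.sum_congr rfl (fun j _ => ?_)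
    rw [map_smul, hpow, hcanc]

end Pool.Agent.W103.WH
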